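import Pool.Agent.H87.IS.Stmts

/-!
# Row TRC of project ISO: transport of chains by a formal change of coordinates
-/

set_option autoImplicit false

namespace Pool.Agent.H87.IS

open MvPolynomial Pool.Agent.H39.MonoR Pool.Agent.H75.Mono Pool.Agent.H87.QF

namespace TRCAux

variable {k : Type} [Field k] {σ : Type}

/-- `pd` is the partial derivative of Mathlib -/
lemma pd_eq (i : σ) (h : MvPowerSeries σ k) : pd i h = MvPowerSeries.pderiv k i h := by
  ext m
  rw [MvPowerSeries.coeff_pderiv, mul_comm]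
  rfl

/-- the chain rule -/
lemma chain_rule [Fintype σ] [DecidableEq σ] (φ : σ → MvPowerSeries σ k) (l : σ)
    (p : MvPolynomial σ k) :
    pd l (aeval φ p) = ∑ m, aeval φ (pderiv m p) * pd l (φ m) := by
  simp only [pd_eq]
  induction p using MvPolynomial.induction_on with
  | C a =>
    rw [aeval_C, Derivation.map_algebraMap]
    simp only [pderiv_C, map_zero, zero_mul, Finset.sum_const_zero]
  | add p q hp hq =>
    simp only [map_add, add_mul, Finset.sum_add_distrib, hp, hq]
  | mul_X p n hp =>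
    have h1 : ∀ m : σ, aeval φ (pderiv m (p * X n)) * MvPowerSeries.pderiv k l (φ m) =
        φ n * (aeval φ (pderiv m p) * MvPowerSeries.pderiv k l (φ m)) +
        (if m = n then aeval φ p * MvPowerSeries.pderiv k l (φ m) else 0) := by
      intro m
      rw [Derivation.leibniz, smul_eq_mul, smul_eq_mul, map_add, map_mul, map_mul, aeval_X]
      by_cases hmn : m = n
      · subst hmn
        rw [pderiv_X_self, map_one, if_pos rfl]
        ring
      · rw [pderiv_X_of_ne (Ne.symm hmn), map_zero, if_neg hmn]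
        ring
    rw [Finset.sum_congr rfl fun m _ => h1 m, Finset.sum_add_distrib, ← Finset.mul_sum, ← hp,
      Finset.sum_ite_eq' Finset.univ n, if_pos (Finset.mem_univ n), map_mul, aeval_X,
      Derivation.leibniz, smul_eq_mul, smul_eq_mul]
    ring

/-- the constant coefficient of the derivative -/
lemma cc_pd (l : σ) (h : MvPowerSeries σ k) :
    MvPowerSeries.constantCoeff (pd l h) = MvPowerSeries.coeff (Finsupp.single l 1) h := by
  rw [pd_eq, ← MvPowerSeries.coeff_zero_eq_constantCoeff_apply, MvPowerSeries.coeff_pderiv]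
  simp

/-- the inverse of the Jacobian matrix -/
lemma exists_inv [Fintype σ] [DecidableEq σ] (φ : σ → MvPowerSeries σ k)
    (h : (Matrix.of fun i j => MvPowerSeries.coeff (Finsupp.single j 1) (φ i)).det ≠ 0) :
    ∃ G : Matrix σ σ (MvPowerSeries σ k), ∀ m i, ∑ l, pd l (φ m) * G l i = if m = i then 1 else 0 := by
  set J : Matrix σ σ (MvPowerSeries σ k) := Matrix.of fun m l => pd l (φ m) with hJ
  have hu : IsUnit J.det := by
    rw [MvPowerSeries.isUnit_iff_constantCoeff, isUnit_iff_ne_zero, RingHom.map_det]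
    have h2 : (MvPowerSeries.constantCoeff (σ := σ) (R := k)).mapMatrix J =
        Matrix.of fun i j => MvPowerSeries.coeff (Finsupp.single j 1) (φ i) := by
      ext a b
      exact cc_pd b (φ a)
    rw [h2]
    exact h
  refine ⟨J⁻¹, fun m i => ?_⟩
  have h3 := congrFun (congrFun (Matrix.mul_nonsing_inv J hu) m) i
  rw [Matrix.mul_apply, Matrix.one_apply] at h3
  exact h3

/-- the derivatives in the new coordinates -/
lemma key [Fintype σ] [DecidableEq σ] (φ : σ → MvPowerSeries σ k)
    (G : Matrix σ σ (MvPowerSeries σ k))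
    (hG : ∀ m i, ∑ l, pd l (φ m) * G l i = if m = i then 1 else 0) (i : σ)
    (p : MvPolynomial σ k) :
    ∑ l, G l i * pd l (aeval φ p) = aeval φ (pderiv i p) := by
  have h1 : ∀ l, G l i * pd l (aeval φ p) =
      ∑ m, aeval φ (pderiv m p) * (pd l (φ m) * G l i) := by
    intro l
    rw [chain_rule, Finset.mul_sum]
    refine Finset.sum_congr rfl fun m _ => ?_
    ring
  rw [Finset.sum_congr rfl fun l _ => h1 l, Finset.sum_comm]
  have h2 : ∀ m, ∑ l, aeval φ (pderiv m p) * (pd l (φ m) * G l i) =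
      if m = i then aeval φ (pderiv m p) else 0 := by
    intro m
    rw [← Finset.mul_sum, hG]
    by_cases hmi : m = i
    · rw [if_pos hmi, if_pos hmi, mul_one]
    · rw [if_neg hmi, if_neg hmi, mul_zero]
  rw [Finset.sum_congr rfl fun m _ => h2 m, Finset.sum_ite_eq' Finset.univ i,
    if_pos (Finset.mem_univ i)]

end TRCAux

open TRCAux in
/-- row TRC -/
theorem TRC (hPSA : PSAStmt) : TRCStmt := by
  intro k _ σ _ _ f F x0 s hFE hLS
  obtain ⟨φ, -, hdet, hF⟩ := hFE
  obtain ⟨c, hc0, hc1, hT⟩ := hLS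
  obtain ⟨ρ', hp, -, hD⟩ := hPSA k σ c.V c.ρ hT
  obtain ⟨G, hG⟩ := exists_inv φ hdet
  have hL : ∀ l h v, c.D l (ρ' h v) = ρ' (pd l h) v + ρ' h (c.D l v) := fun l h v =>
    hD (c.D l) l (c.leib l) h v
  have hFl : ∀ l, c.ρ (pderiv l F) = ρ' (pd l (aeval φ f)) := by
    intro l
    rw [← hp, hF, pd_eq, MvPowerSeries.pderiv_coe]
  have hmm : ∀ (a b : MvPowerSeries σ k) (v : c.V), ρ' a (ρ' b v) = ρ' (a * b) v := by
    intro a b v
    rw [map_mul]
    rfl
  have hk : ∀ (i : σ) (p : MvPolynomial σ k) (v : c.V),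
      ∑ l, ρ' (G l i) (ρ' (pd l (aeval φ p)) v) = ρ' (aeval φ (pderiv i p)) v := by
    intro i p v
    rw [← key φ G hG i p, map_sum, LinearMap.sum_apply]
    exact Finset.sum_congr rfl fun l _ => hmm _ _ _
  let D₁ : σ → Module.End k c.V := fun i => ∑ l, ρ' (G l i) * c.D l
  have hD1 : ∀ i v, D₁ i v = ∑ l, ρ' (G l i) (c.D l v) := by
    intro i v
    exact LinearMap.sum_apply _ _ _
  have hf : ρ' (aeval φ f) = c.ρ F := by rw [hF, hp]
  refine ⟨{ V := c.V, ρ := ρ'.comp (aeval φ), D := D₁, leib := ?_, e := c.e, mul := ?_,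
            der := ?_, ne := c.ne }, ?_, ?_⟩
  · intro i p v
    show D₁ i (ρ' (aeval φ p) v) = ρ' (aeval φ (pderiv i p)) v + ρ' (aeval φ p) (D₁ i v)
    rw [hD1, hD1, ← hk i p v, map_sum, ← Finset.sum_add_distrib]
    refine Finset.sum_congr rfl fun l _ => ?_
    rw [hL, map_add, hmm (G l i) (aeval φ p), hmm (aeval φ p) (G l i), mul_comm (G l i)]
  · intro j
    show ρ' (aeval φ f) (c.e (j + 1)) = c.e j
    rw [hf, c.mul]
  · intro i j
    show D₁ i (c.e j) = (-((s : k) + j)) • ρ' (aeval φ (pderiv i f)) (c.e (j + 1))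
    rw [hD1, ← hk i f, Finset.smul_sum]
    refine Finset.sum_congr rfl fun l _ => ?_
    rw [c.der, map_smul, hFl]
  · show ρ' (aeval φ f) (c.e 0) = 0
    rw [hf, hc0]
  · intro i
    show ρ' (aeval φ (pderiv i f)) (c.e 0) = 0
    rw [← hk i f]
    refine Finset.sum_eq_zero fun l _ => ?_
    rw [← hFl, hc1, map_zero]

end Pool.Agent.H87.IS
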